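import Pool.Agent.Helper36.RN.GoalsH

/-!
# Project RFn, existence part, packet FIA: framed Ricci flow in `XS n`
-/

set_option autoImplicit false

namespace Pool.Agent.Helper67.RN

open Set Filter Topology Pool.Agent.Helper47.RFn Pool.Agent.Helper36.RN

section alg
variable {n : ℕ} {R : Type} [CommRing R]

theorem mat_one {O : Ix n → Ix n → R} (hO : ∀ a b, ∑ c, O a c * O b c = if a = b then 1 else 0) :
    (Matrix.of O) * (Matrix.of O).transpose = 1 := by
  ext a b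
  rw [Matrix.mul_apply, Matrix.one_apply]
  exact hO a b

theorem mat_one' {O : Ix n → Ix n → R} (hO : ∀ a b, ∑ c, O c a * O c b = if a = b then 1 else 0) :
    (Matrix.of O).transpose * (Matrix.of O) = 1 := by
  ext a b
  rw [Matrix.mul_apply, Matrix.one_apply]
  exact hO a b

theorem mat_inv {A θ : Ix n → Ix n → R} (h : ∀ a b, ∑ i, A a i * θ i b = if a = b then 1 else 0) :
    (Matrix.of A) * (Matrix.of θ) = 1 := by
  ext a b
  rw [Matrix.mul_apply, Matrix.one_apply]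
  exact h a b

theorem S_entry (O S : Ix n → Ix n → R) (a b : Ix n) :
    (Matrix.of O * Matrix.of S * (Matrix.of O).transpose) a b =
      ∑ c, ∑ d, O a c * O b d * S c d := by
  simp only [Matrix.mul_apply, Matrix.of_apply, Matrix.transpose_apply, Finset.sum_mul]
  rw [Finset.sum_comm]
  exact Finset.sum_congr rfl fun c _ => Finset.sum_congr rfl fun d _ => by ring

theorem entry1 (O A S Z : Ix n → Ix n → R)
    (hO : ∀ a b, ∑ c, O c a * O c b = if a = b then 1 else 0) (a i : Ix n) :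
    ∑ b, ((-∑ c, O a c * Z c b) * A b i + O a b * ∑ c, (S b c + Z b c) * A c i) =
      ∑ b, (∑ c, ∑ d, O a c * O b d * S c d) * ∑ e, O b e * A e i := by
  have h1 : -(Matrix.of O * Matrix.of Z) * Matrix.of A +
      Matrix.of O * ((Matrix.of S + Matrix.of Z) * Matrix.of A) =
      (Matrix.of O * Matrix.of S * (Matrix.of O).transpose) * (Matrix.of O * Matrix.of A) := by
    have h2 : (Matrix.of O * Matrix.of S * (Matrix.of O).transpose) * (Matrix.of O * Matrix.of A) =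
        Matrix.of O * Matrix.of S * (((Matrix.of O).transpose * Matrix.of O) * Matrix.of A) := by
      simp only [Matrix.mul_assoc]
    rw [h2, mat_one' hO]
    simp only [Matrix.one_mul, Matrix.add_mul, Matrix.mul_add, Matrix.neg_mul, Matrix.mul_assoc]
    abel
  have h3 := congrFun (congrFun h1 a) i
  rw [Matrix.mul_apply (M := Matrix.of O * Matrix.of S * (Matrix.of O).transpose)] at h3
  simp only [S_entry] at h3
  simp only [Matrix.add_apply, Matrix.mul_apply, Matrix.neg_apply, Matrix.of_apply] at h3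
  rw [Finset.sum_add_distrib]
  exact h3

theorem entry2 (O θ S Z : Ix n → Ix n → R)
    (hO : ∀ a b, ∑ c, O c a * O c b = if a = b then 1 else 0) (hZ : ∀ a b, Z a b = - Z b a)
    (i a : Ix n) :
    ∑ b, ((-∑ c, θ i c * (S c b + Z c b)) * O a b + θ i b * (-∑ c, O a c * Z c b)) =
      -∑ b, (∑ c, θ i c * O b c) * (∑ c, ∑ d, O b c * O a d * S c d) := by
  have hZ' : (Matrix.of Z).transpose = -Matrix.of Z := by
    ext a b
    rw [Matrix.transpose_apply, Matrix.neg_apply]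
    exact hZ b a
  have h1 : -(Matrix.of θ * (Matrix.of S + Matrix.of Z)) * (Matrix.of O).transpose +
      Matrix.of θ * (-(Matrix.of O * Matrix.of Z)).transpose =
      -((Matrix.of θ * (Matrix.of O).transpose) *
        (Matrix.of O * Matrix.of S * (Matrix.of O).transpose)) := by
    have h2 : (Matrix.of θ * (Matrix.of O).transpose) *
        (Matrix.of O * Matrix.of S * (Matrix.of O).transpose) =
        Matrix.of θ * (((Matrix.of O).transpose * Matrix.of O) *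
          (Matrix.of S * (Matrix.of O).transpose)) := by
      simp only [Matrix.mul_assoc]
    rw [h2, mat_one' hO, Matrix.transpose_neg, Matrix.transpose_mul, hZ']
    simp only [Matrix.one_mul, Matrix.add_mul, Matrix.mul_add, Matrix.neg_mul, Matrix.mul_neg,
      Matrix.mul_assoc]
    abel
  have h3 := congrFun (congrFun h1 i) a
  rw [Matrix.neg_apply (_ * _)] at h3
  rw [Matrix.mul_apply (M := Matrix.of θ * (Matrix.of O).transpose)] at h3
  simp only [S_entry] at h3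
  simp only [Matrix.add_apply, Matrix.mul_apply, Matrix.neg_apply, Matrix.transpose_apply,
    Matrix.of_apply] at h3
  rw [Finset.sum_add_distrib]
  exact h3

/-- `S' v' = 0` -/
theorem Sv (O S : Ix n → Ix n → R) (v : Ix n → R)
    (hO : ∀ a b, ∑ c, O c a * O c b = if a = b then 1 else 0)
    (h : ∀ c, ∑ f, S c f * v f = 0) (a : Ix n) :
    ∑ b, (∑ c, ∑ d, O a c * O b d * S c d) * ∑ e, O b e * v e = 0 := by
  have h0 : (Matrix.of S).mulVec v = 0 := by
    funext c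
    exact h c
  have h1 : (Matrix.of O * Matrix.of S * (Matrix.of O).transpose).mulVec
      ((Matrix.of O).mulVec v) = 0 := by
    rw [Matrix.mulVec_mulVec]
    have h2 : (Matrix.of O * Matrix.of S * (Matrix.of O).transpose) * Matrix.of O =
        Matrix.of O * Matrix.of S * ((Matrix.of O).transpose * Matrix.of O) := by
      simp only [Matrix.mul_assoc]
    rw [h2, mat_one' hO, Matrix.mul_one, ← Matrix.mulVec_mulVec, h0, Matrix.mulVec_zero]
  have h3 := congrFun h1 a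
  rw [Matrix.mulVec, dotProduct] at h3
  simp only [S_entry] at h3
  exact h3

/-- `v' S' = 0` -/
theorem vS (O S : Ix n → Ix n → R) (v : Ix n → R)
    (hO : ∀ a b, ∑ c, O c a * O c b = if a = b then 1 else 0)
    (h : ∀ c, ∑ f, v f * S f c = 0) (a : Ix n) :
    ∑ b, (∑ e, O b e * v e) * (∑ c, ∑ d, O b c * O a d * S c d) = 0 := by
  have h1 := Sv O (fun c d => S d c) v hO (fun c => by
    rw [← h c]
    exact Finset.sum_congr rfl fun f _ => mul_comm _ _) a
  rw [← h1]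
  refine Finset.sum_congr rfl fun b _ => ?_
  rw [mul_comm]
  congr 1
  rw [Finset.sum_comm]
  exact Finset.sum_congr rfl fun d _ => Finset.sum_congr rfl fun c _ => by ring

theorem inv_right (S A θ : Ix n → Ix n → R)
    (h : ∀ a b, ∑ i, A a i * θ i b = if a = b then 1 else 0) (a b : Ix n) :
    ∑ i, (∑ c, S a c * A c i) * θ i b = S a b := by
  calc (∑ i, (∑ c, S a c * A c i) * θ i b) = ∑ c, S a c * ∑ i, A c i * θ i b := by
        simp only [Finset.sum_mul, Finset.mul_sum]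
        rw [Finset.sum_comm]
        exact Finset.sum_congr rfl fun c _ => Finset.sum_congr rfl fun i _ => by ring
    _ = S a b := by
        simp only [h]
        simp

theorem rad_der (S A θ : Ix n → Ix n → R) (ν : Ix n → R)
    (hAt : ∀ a b, ∑ i, A a i * θ i b = if a = b then 1 else 0)
    (h1 : ∀ a, ∑ b, S a b * ∑ i, θ i b * ν i = 0)
    (h2 : ∀ a, ∑ b, (∑ i, θ i b * ν i) * S b a = 0) (a : Ix n) :
    ∑ i, ((∑ b, S a b * A b i) * ν i + A a i * 0)
      - ∑ i, ((-∑ b, θ i b * S b a) * ν i + θ i a * 0) =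
    ∑ b, (∑ i, (∑ c, S a c * A c i) * θ i b) * (∑ i, A b i * ν i - ∑ i, θ i b * ν i) := by
  simp only [inv_right S A θ hAt, mul_zero, add_zero, mul_sub, Finset.sum_sub_distrib]
  rw [h1 a]
  have e1 : ∑ i, (∑ b, S a b * A b i) * ν i = ∑ b, S a b * ∑ i, A b i * ν i := by
    simp only [Finset.sum_mul, Finset.mul_sum]
    rw [Finset.sum_comm]
    exact Finset.sum_congr rfl fun c _ => Finset.sum_congr rfl fun i _ => by ring
  have e2 : ∑ i, (-∑ b, θ i b * S b a) * ν i = 0 := by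
    have e3 : ∑ i, (-∑ b, θ i b * S b a) * ν i = -∑ b, (∑ i, θ i b * ν i) * S b a := by
      simp only [neg_mul, Finset.sum_neg_distrib, Finset.sum_mul]
      rw [Finset.sum_comm]
      refine congrArg Neg.neg ?_
      exact Finset.sum_congr rfl fun c _ => Finset.sum_congr rfl fun i _ => by ring
    rw [e3, h2 a, neg_zero]
  rw [e1, e2]

end alg

/-! ### rules -/

section rules
variable {n : ℕ} {τ : ℝ}

theorem cd_mul (h : R_CDA) {y y' z z' : ℝ → XS n} (hy : CD τ y y') (hz : CD τ z z') :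
    CD τ (fun t => y t * z t) (fun t => y' t * z t + y t * z' t) :=
  (h n τ).2.2.2.1 y y' z z' hy hz

theorem cd_sub (h : R_CDA) {y y' z z' : ℝ → XS n} (hy : CD τ y y') (hz : CD τ z z') :
    CD τ (fun t => y t - z t) (fun t => y' t - z' t) :=
  (h n τ).2.2.1 y y' z z' hy hz

theorem cd_const (h : R_CDA) (f : XS n) : CD τ (fun _ => f) (fun _ => 0) := (h n τ).1 f

theorem cd_sum (h : R_CDA) {ι : Type} [Fintype ι] {y y' : ι → ℝ → XS n}
    (hy : ∀ i, CD τ (y i) (y' i)) : CD τ (fun t => ∑ i, y i t) (fun t => ∑ i, y' i t) :=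
  (h n τ).2.2.2.2.2.2.2.2.1 ι Finset.univ y y' fun i _ => hy i

theorem cd_congr (h : R_CDA) {y y' z' : ℝ → XS n} (hy : CD τ y y')
    (he : ∀ t ∈ Icc 0 τ, y' t = z' t) : CD τ y z' :=
  (h n τ).2.2.2.2.2.2.2.2.2.1 y y' z' hy he

theorem cd_cc (h : R_CDA) {y y' : ℝ → XS n} (hy : CD τ y y') : CC τ y ∧ CC τ y' :=
  (h n τ).2.2.2.2.2.2.2.2.2.2.2.1 y y' hy

theorem cc_mul (h : R_CDA) {y z : ℝ → XS n} (hy : CC τ y) (hz : CC τ z) :
    CC τ (fun t => y t * z t) :=
  (h n τ).2.2.2.2.2.2.2.2.2.2.2.2.2.2.2.1 y z hy hz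

theorem cc_sum (h : R_CDA) {ι : Type} [Fintype ι] {y : ι → ℝ → XS n} (hy : ∀ i, CC τ (y i)) :
    CC τ (fun t => ∑ i, y i t) :=
  (h n τ).2.2.2.2.2.2.2.2.2.2.2.2.2.2.2.2.2.2.2.2.1 ι Finset.univ y fun i _ => hy i

end rules

section main
variable {n : ℕ} {τ : ℝ}

/-- rotated frame -/
def rA (O A : Ix n → Ix n → XS n) (a i : Ix n) : XS n := ∑ b, O a b * A b i

/-- rotated coframe -/
def rT (O θ : Ix n → Ix n → XS n) (i a : Ix n) : XS n := ∑ b, θ i b * O a b

/-- Ricci tensor of the rotated frame -/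
noncomputable def RR (O A θ : Ix n → Ix n → XS n) (a b : Ix n) : XS n :=
  FR.Rc (Ee (n := n)) nu (rA O A) (rT O θ) a b

/-- everything about the solution of the system -/
structure Cx (τ : ℝ) (A θ O : ℝ → Ix n → Ix n → XS n) (w : ℝ → Ix n → Ix n → Ix n → XS n) :
    Prop where
  fs : FS τ A θ O w
  iv : INV τ A θ O w
  zz : ∀ t ∈ Icc 0 τ, ∀ a b, TC.ze (Ee (n := n)) (A t) (w t) a b = - TC.ze (Ee (n := n)) (A t) (w t) b a
  rad1 : ∀ t ∈ Icc 0 τ, ∀ c, ∑ f, TC.Sr (Ee (n := n)) nu (A t) (w t) c f * TC.vv nu (θ t) f = 0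
  rad2 : ∀ t ∈ Icc 0 τ, ∀ c, ∑ f, TC.vv nu (θ t) f * TC.Sr (Ee (n := n)) nu (A t) (w t) f c = 0
  rc : ∀ t ∈ Icc 0 τ, ∀ a c, RR (O t) (A t) (θ t) a c =
      ∑ b, ∑ d, O t a b * O t c d * TC.Sr (Ee (n := n)) nu (A t) (w t) b d

variable {A θ O : ℝ → Ix n → Ix n → XS n} {w : ℝ → Ix n → Ix n → Ix n → XS n}

theorem Cx.dA (c : Cx τ A θ O w) (h : R_CDA) (a i : Ix n) :
    CD τ (fun t => rA (O t) (A t) a i)
      (fun t => ∑ b, RR (O t) (A t) (θ t) a b * rA (O t) (A t) b i) := by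
  have h1 : CD τ (fun t => ∑ b, O t a b * A t b i)
      (fun t => ∑ b, (TC.rO (Ee (n := n)) (A t) (w t) (O t) a b * A t b i +
        O t a b * TC.rA (Ee (n := n)) nu (A t) (w t) b i)) :=
    cd_sum h (y := fun b t => O t a b * A t b i) fun b => cd_mul h (c.fs.dO a b) (c.fs.dA b i)
  refine cd_congr h h1 ?_
  intro t ht
  have h2 := entry1 (O t) (A t) (TC.Sr (Ee (n := n)) nu (A t) (w t)) (TC.ze (Ee (n := n)) (A t) (w t))
    (c.iv.OO' t ht) a i
  refine h2.trans (Finset.sum_congr rfl fun b _ => ?_)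
  rw [c.rc t ht a b]
  rfl

theorem Cx.dt (c : Cx τ A θ O w) (h : R_CDA) (i a : Ix n) :
    CD τ (fun t => rT (O t) (θ t) i a)
      (fun t => -∑ b, rT (O t) (θ t) i b * RR (O t) (A t) (θ t) b a) := by
  have h1 : CD τ (fun t => ∑ b, θ t i b * O t a b)
      (fun t => ∑ b, (TC.rt (Ee (n := n)) nu (A t) (θ t) (w t) i b * O t a b +
        θ t i b * TC.rO (Ee (n := n)) (A t) (w t) (O t) a b)) :=
    cd_sum h (y := fun b t => θ t i b * O t a b) fun b => cd_mul h (c.fs.dt i b) (c.fs.dO a b)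
  refine cd_congr h h1 ?_
  intro t ht
  have h2 := entry2 (O t) (θ t) (TC.Sr (Ee (n := n)) nu (A t) (w t)) (TC.ze (Ee (n := n)) (A t) (w t))
    (c.iv.OO' t ht) (c.zz t ht) i a
  refine h2.trans (congrArg Neg.neg (Finset.sum_congr rfl fun b _ => ?_))
  rw [c.rc t ht b a]
  rfl

theorem Cx.At (c : Cx τ A θ O w) {t : ℝ} (ht : t ∈ Icc 0 τ) (a b : Ix n) :
    ∑ i, rA (O t) (A t) a i * rT (O t) (θ t) i b = if a = b then 1 else 0 := by
  have h1 : (Matrix.of (O t) * Matrix.of (A t)) * (Matrix.of (θ t) * (Matrix.of (O t)).transpose)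
      = 1 := by
    have h2 : (Matrix.of (O t) * Matrix.of (A t)) * (Matrix.of (θ t) * (Matrix.of (O t)).transpose)
        = Matrix.of (O t) * (Matrix.of (A t) * Matrix.of (θ t)) * (Matrix.of (O t)).transpose := by
      simp only [Matrix.mul_assoc]
    rw [h2, mat_inv (c.iv.ch t ht).At, Matrix.mul_one, mat_one (c.iv.OO t ht)]
  have h3 := congrFun (congrFun h1 a) b
  rw [Matrix.mul_apply, Matrix.one_apply] at h3
  simp only [Matrix.mul_apply, Matrix.of_apply, Matrix.transpose_apply] at h3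
  exact h3

theorem Cx.tA (c : Cx τ A θ O w) {t : ℝ} (ht : t ∈ Icc 0 τ) (i j : Ix n) :
    ∑ a, rT (O t) (θ t) i a * rA (O t) (A t) a j = if i = j then 1 else 0 := by
  have h1 : (Matrix.of (θ t) * (Matrix.of (O t)).transpose) * (Matrix.of (O t) * Matrix.of (A t))
      = 1 := by
    have h2 : (Matrix.of (θ t) * (Matrix.of (O t)).transpose) *
        (Matrix.of (O t) * Matrix.of (A t)) =
        Matrix.of (θ t) * ((Matrix.of (O t)).transpose * Matrix.of (O t)) * Matrix.of (A t) := by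
      simp only [Matrix.mul_assoc]
    rw [h2, mat_one' (c.iv.OO' t ht), Matrix.mul_one, mat_inv (c.iv.ch t ht).tA]
  have h3 := congrFun (congrFun h1 i) j
  rw [Matrix.mul_apply, Matrix.one_apply] at h3
  simp only [Matrix.mul_apply, Matrix.of_apply, Matrix.transpose_apply] at h3
  exact h3

theorem vv_rot (O θ : Ix n → Ix n → XS n) (a : Ix n) :
    ∑ i, rT O θ i a * nu i = ∑ e, O a e * TC.vv nu θ e := by
  unfold TC.vv rT
  simp only [Finset.sum_mul, Finset.mul_sum]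
  rw [Finset.sum_comm]
  exact Finset.sum_congr rfl fun e _ => Finset.sum_congr rfl fun i _ => by ring

/-- difference of the two radial vectors -/
noncomputable def NN (O A θ : Ix n → Ix n → XS n) (a : Ix n) : XS n :=
  ∑ i, rA O A a i * nu i - ∑ i, rT O θ i a * nu i

theorem Cx.N (c : Cx τ A θ O w) (h : R_CDA) (h0 : R_EN0) (hi : ∀ a, NN (O 0) (A 0) (θ 0) a = 0) :
    ∀ t ∈ Icc 0 τ, ∀ a, NN (O t) (A t) (θ t) a = 0 := by
  have hA := c.dA h
  have hT := c.dt h
  have k1 : ∀ a, CD τ (fun t => NN (O t) (A t) (θ t) a)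
      (fun t => ∑ i, ((∑ b, RR (O t) (A t) (θ t) a b * rA (O t) (A t) b i) * nu i
        + rA (O t) (A t) a i * 0)
        - ∑ i, ((-∑ b, rT (O t) (θ t) i b * RR (O t) (A t) (θ t) b a) * nu i
          + rT (O t) (θ t) i a * 0)) := by
    intro a
    have e1 := cd_sum h (y := fun i t => rA (O t) (A t) a i * nu i)
      (fun i => cd_mul h (hA a i) (cd_const h (nu i)))
    have e2 := cd_sum h (y := fun i t => rT (O t) (θ t) i a * nu i)
      (fun i => cd_mul h (hT i a) (cd_const h (nu i)))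
    exact cd_sub h e1 e2
  have k2 : ∀ a b, CC τ (fun t => ∑ i, (∑ c, RR (O t) (A t) (θ t) a c * rA (O t) (A t) c i)
      * rT (O t) (θ t) i b) := by
    intro a b
    exact cc_sum h (y := fun i t => (∑ c, RR (O t) (A t) (θ t) a c * rA (O t) (A t) c i)
      * rT (O t) (θ t) i b) fun i => cc_mul h (cd_cc h (hA a i)).2 (cd_cc h (hT i b)).1
  refine h0 n (Ix n) τ (fun a t => NN (O t) (A t) (θ t) a) _ _ k1 k2 ?_ hi
  intro t ht a
  refine rad_der (RR (O t) (A t) (θ t)) (rA (O t) (A t)) (rT (O t) (θ t)) nu (c.At ht)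
    (fun a => ?_) (fun a => ?_) a
  · rw [← Sv (O t) (TC.Sr (Ee (n := n)) nu (A t) (w t)) (TC.vv nu (θ t)) (c.iv.OO' t ht)
      (c.rad1 t ht) a]
    exact Finset.sum_congr rfl fun b _ => by rw [c.rc t ht a b, vv_rot]
  · rw [← vS (O t) (TC.Sr (Ee (n := n)) nu (A t) (w t)) (TC.vv nu (θ t)) (c.iv.OO' t ht)
      (c.rad2 t ht) a]
    exact Finset.sum_congr rfl fun b _ => by rw [c.rc t ht b a, vv_rot]

theorem Cx.FH (c : Cx τ A θ O w) (hN : ∀ t ∈ Icc 0 τ, ∀ a, NN (O t) (A t) (θ t) a = 0) :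
    ∀ t ∈ Icc 0 τ, FrameHyp Ee nu (rA (O t) (A t)) (rT (O t) (θ t)) := fun t ht =>
  ⟨(bh_XS n).ee, (bh_XS n).en, (bh_XS n).nn, (bh_XS n).ne, c.At ht, c.tA ht,
    fun a => sub_eq_zero.mp (hN t ht a)⟩

theorem rA_one (A : Ix n → Ix n → XS n) : rA (fun a b => if a = b then 1 else 0) A = A := by
  funext a i
  unfold rA
  simp

theorem rT_one (θ : Ix n → Ix n → XS n) : rT (fun a b => if a = b then 1 else 0) θ = θ := by
  funext a i
  unfold rT
  simp

theorem exists_cx (hLCI : R_LCI) (hFRL : R_FRL) (hIVV : R_IVV) (hZT : R_ZT) (hZR : R_ZR)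
    (hRAD : R_RAD) (hGAU : R_GAU) (hANT : R_ANT) (hn : 1 ≤ n) (A0 θ0 : Ix n → Ix n → XS n)
    (h0 : FrameHyp Ee nu A0 θ0) :
    ∃ τ > 0, ∃ (A θ O : ℝ → Ix n → Ix n → XS n) (w : ℝ → Ix n → Ix n → Ix n → XS n),
      Cx τ A θ O w ∧ A 0 = A0 ∧ θ 0 = θ0 ∧ O 0 = fun a b => if a = b then 1 else 0 := by
  obtain ⟨hch0, hta0, hwr0⟩ := (hLCI n (XS n) Ee nu A0 θ0).1 h0
  obtain ⟨τ, hτ, A, θ, O, w, hFS, hA0, hθ0, hO0, hw0⟩ := hFRL n hn A0 θ0
    (fun a b => if a = b then 1 else 0) (wLC Ee nu A0 θ0) h0.At hch0.anti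
  have hinv : INV τ A θ O w := by
    refine hIVV n τ A θ O w hFS (by rw [hA0, hθ0]; exact h0.At) ?_
    rw [hO0]
    intro a b
    simp
  have hta : ∀ t ∈ Icc 0 τ, ∀ a b c, TC.ta (Ee (n := n)) nu (A t) (θ t) (w t) a b c = 0 :=
    hZT n τ A θ O w hFS hinv (by rw [hA0, hθ0, hw0]; exact hta0)
  have hwr : ∀ t ∈ Icc 0 τ, ∀ c d, TC.wr nu (w t) c d = 0 :=
    hZR n τ A θ O w hFS hinv hta (by rw [hw0]; exact hwr0)
  refine ⟨τ, hτ, A, θ, O, w, ⟨hFS, hinv, ?_, ?_, ?_, ?_⟩, hA0, hθ0, hO0⟩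
  · intro t ht
    exact (hANT n (XS n) Ee nu (A t) (θ t) (w t) (hFS.anti t)).2.2.2.2.2.1
  · intro t ht
    exact ((hRAD n (XS n) Ee nu (A t) (θ t) (w t) (bh_XS n) (hinv.ch t ht)).2.2.2
      (hta t ht) (hwr t ht)).1
  · intro t ht
    exact ((hRAD n (XS n) Ee nu (A t) (θ t) (w t) (bh_XS n) (hinv.ch t ht)).2.2.2
      (hta t ht) (hwr t ht)).2
  · intro t ht
    exact hGAU n (XS n) Ee nu (A t) (θ t) (O t) (w t) (bh_XS n) (hinv.ch t ht) (hta t ht)
      (hinv.OO t ht) (hinv.OO' t ht)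

end main

theorem fia : G_FIA := by
  intro hLCI hFRL hIVV hZT hZR hRAD hGAU hANT hCDA hEN0 n hn A0 θ0 h0
  obtain ⟨τ, hτ, A, θ, O, w, c, hA0, hθ0, hO0⟩ :=
    exists_cx hLCI hFRL hIVV hZT hZR hRAD hGAU hANT hn A0 θ0 h0
  have hi : ∀ a, NN (O 0) (A 0) (θ 0) a = 0 := by
    intro a
    unfold NN
    rw [hA0, hθ0, hO0, rA_one, rT_one, sub_eq_zero]
    exact h0.nA a
  refine ⟨τ, hτ, fun t => rA (O t) (A t), fun t => rT (O t) (θ t), ?_, ?_,
    c.FH (c.N hCDA hEN0 hi), c.dA hCDA, c.dt hCDA⟩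
  · show rA (O 0) (A 0) = A0
    rw [hO0, hA0, rA_one]
  · show rT (O 0) (θ 0) = θ0
    rw [hO0, hθ0, rT_one]

end Pool.Agent.Helper67.RN
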