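import Pool.Agent.Helper64.RN.Goals
import Pool.Agent.Helper74.IG.RK1

/-!
# Packet ST of project RN: the structure theorem
-/

open scoped BigOperators

universe u

namespace Pool.Agent.Helper67.RN.ST

open Module Pool.Agent.Helper64.IG Pool.Agent.Helper64.RN

variable {K : Type u} [Field K] {E : Type} {q : ℕ}

theorem R_empty (v : E → Fin q → K) : R v ∅ = 0 := by
  unfold R
  simp

theorem R_mono (v : E → Fin q → K) {X Y : Finset E} (h : X ⊆ Y) : R v X ≤ R v Y := by
  unfold R
  exact Submodule.finrank_mono (Submodule.span_mono (Set.image_mono (by exact_mod_cast h)))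

theorem R_le (v : E → Fin q → K) (X : Finset E) : R v X ≤ q := by
  unfold R
  have := Submodule.finrank_le (Submodule.span K (v '' (X : Set E)))
  simpa using this

theorem R_le_card (v : E → Fin q → K) (X : Finset E) : R v X ≤ X.card := by
  classical
  unfold R
  have h1 : v '' (X : Set E) = ((X.image v : Finset (Fin q → K)) : Set (Fin q → K)) := by
    simp
  rw [h1]
  exact (finrank_span_finset_le_card (R := K) (X.image v)).trans Finset.card_image_le

theorem R_submod [DecidableEq E] (v : E → Fin q → K) (X Y : Finset E) :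
    R v (X ∩ Y) + R v (X ∪ Y) ≤ R v X + R v Y := by
  unfold R
  have h1 : Submodule.span K (v '' ((X ∪ Y : Finset E) : Set E)) =
      Submodule.span K (v '' (X : Set E)) ⊔ Submodule.span K (v '' (Y : Set E)) := by
    rw [← Submodule.span_union, Finset.coe_union, Set.image_union]
  have h2 : Submodule.span K (v '' ((X ∩ Y : Finset E) : Set E)) ≤
      Submodule.span K (v '' (X : Set E)) ⊓ Submodule.span K (v '' (Y : Set E)) := by
    refine le_inf (Submodule.span_mono (Set.image_mono ?_)) (Submodule.span_mono (Set.image_mono ?_))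
    · exact_mod_cast Finset.inter_subset_left
    · exact_mod_cast Finset.inter_subset_right
  have h3 := Submodule.finrank_mono h2
  have h4 := Submodule.finrank_sup_add_finrank_inf_eq (Submodule.span K (v '' (X : Set E)))
    (Submodule.span K (v '' (Y : Set E)))
  rw [h1]
  omega

theorem R_univ_le [Fintype E] [DecidableEq E] (v : E → Fin q → K) (X : Finset E) :
    R v Finset.univ ≤ R v X + R v Xᶜ := by
  have h := R_submod v X Xᶜ
  rw [Finset.union_compl] at h
  omega

theorem R_image {p n : ℕ} [DecidableEq E] (v : E → Fin p → K) (e : Fin n → E)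
    (J : Finset (Fin n)) : R (fun i => v (e i)) J = R v (J.image e) := by
  unfold R
  have h : (fun i => v (e i)) '' (J : Set (Fin n)) = v '' ((J.image e : Finset E) : Set E) := by
    rw [Finset.coe_image, Set.image_image]
  rw [h]

theorem up_elim {p r N : ℕ} (eq : Fin q ≃ Fin p ⊕ Fin r) (s : Fin r → E)
    (e : Fin N → E) (u : Fin p → Fin N) (i j : Fin p) (a b : Fin N) :
    Sum.elim (e ∘ up u i j a b) s ∘ eq =
      up (Sum.elim (e ∘ u) s ∘ eq) (eq.symm (Sum.inl i)) (eq.symm (Sum.inl j)) (e a) (e b) := by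
  funext x
  obtain ⟨y, rfl⟩ := eq.symm.surjective x
  unfold up
  rcases y with y | y
  · by_cases hj : y = j
    · subst hj
      simp [Function.update_self]
    · by_cases hi : y = i
      · subst hi
        simp [Function.update_of_ne, hj]
      · simp [Function.update_of_ne, hj, hi]
  · simp [Function.update_of_ne]

theorem CR_minor {p r N : ℕ} {ω : (Fin q → E) → K} (h : CR ω) (eq : Fin q ≃ Fin p ⊕ Fin r)
    (s : Fin r → E) (e : Fin N → E) :
    CR (fun a : Fin p → Fin N => ω (Sum.elim (e ∘ a) s ∘ eq)) := by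
  intro i j u u' a b c d hij
  simp only [up_elim]
  refine h _ _ _ _ _ _ _ _ ?_
  intro h1
  exact hij (Sum.inl_injective (eq.symm.injective h1))

theorem t (hTOR : S_TOR.{u}) (hBWI : S_BWI) (hCN : S_CN.{u}) (hUN : S_UN.{u}) : S_ST.{u} := by
  intro K _ m q w ω hne hdec hCR hw hmq hbw
  obtain ⟨c, φ, hφ⟩ := hdec
  set v : Ix m q → Fin q → K := fun e i => φ i e with hv
  have hω : ∀ a, ω a = c * Matrix.det (fun i j => v (a j) i) := hφ
  obtain ⟨a0, ha0⟩ : ∃ a, ω a ≠ 0 := by
    by_contra h
    push Not at h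
    exact hne (funext h)
  have hc : c ≠ 0 := by
    intro h
    apply ha0
    rw [hω, h, zero_mul]
  have hrk : ∀ X : Finset (Ix m q), rk ω X = R v X := fun X =>
    PkRK1.rk1 K m q ω c v hω hne X
  have hRu : R v Finset.univ = q := by
    refine le_antisymm (R_le v _) ?_
    have h1 : Matrix.det (fun i j => v (a0 j) i) ≠ 0 := by
      intro h
      apply ha0
      rw [hω, h, mul_zero]
    have h2 := (PkRK1.det_ne_zero_iff v a0).1 h1
    have h3 := finrank_span_eq_card h2
    rw [Fintype.card_fin] at h3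
    refine h3.symm.le.trans ?_
    unfold R
    refine Submodule.finrank_mono (Submodule.span_mono ?_)
    rintro _ ⟨j, rfl⟩
    exact ⟨a0 j, by simp, rfl⟩
  have hconn : ∀ X : Finset (Ix m q), conn ω X + q = R v X + R v Xᶜ := by
    intro X
    unfold conn
    rw [hrk, hrk]
    have := R_univ_le v X
    omega
  have hSS : SymSub (conn ω) := by
    refine ⟨fun X => ?_, fun X Y => ?_⟩
    · have h1 := hconn X
      have h2 := hconn Xᶜ
      rw [compl_compl] at h2
      omega
    · have h1 := hconn X
      have h2 := hconn Y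
      have h3 := hconn (X ∩ Y)
      have h4 := hconn (X ∪ Y)
      have h5 := R_submod v X Y
      have h6 := R_submod v Xᶜ Yᶜ
      rw [Finset.compl_inter] at h3
      rw [Finset.compl_union] at h4
      omega
  have h0 : conn ω ∅ = 0 := by
    have h1 := hconn ∅
    rw [R_empty, Finset.compl_empty, hRu] at h1
    omega
  have h1 : ∀ e, conn ω {e} ≤ 1 := by
    intro e
    have h1 := hconn {e}
    have h2 := R_le_card v {e}
    have h3 := R_le v ({e} : Finset (Ix m q))ᶜ
    rw [Finset.card_singleton] at h2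
    omega
  have : Nonempty (Ix m q) := by
    rcases Nat.eq_zero_or_pos m with hm | hm
    · exact ⟨Sum.inr ⟨0, by omega⟩⟩
    · exact ⟨Sum.inl ⟨0, hm⟩⟩
  obtain ⟨k, X, hk, hXne, hXd, hXu, hX1, hX2, J0, hJ0⟩ : ∃ (k : ℕ) (X : Fin (k + 1) → Finset (Ix m q)),
      3 ≤ k ∧ (∀ i, (X i).Nonempty) ∧
      (∀ i j, i ≠ j → Disjoint (X i) (X j)) ∧ Finset.univ.biUnion X = Finset.univ ∧
      (∀ i, conn ω (X i) = 1) ∧
      (∀ J : Finset (Fin (k + 1)), 2 ≤ J.card → J.card + 2 ≤ k + 1 → 2 ≤ conn ω (J.biUnion X)) ∧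
      ∃ J : Finset (Fin (k + 1)), w < conn ω (J.biUnion X) := by
    by_contra hcon
    refine hbw (hBWI (Ix m q) (conn ω) w hSS h0 h1 hw ?_)
    intro k X a1 a2 a3 a4 a5 a6 J
    by_contra hJ
    exact hcon ⟨k, X, a1, a2, a3, a4, a5, a6, J, not_le.1 hJ⟩
  obtain ⟨S, e, he, hS, hTor⟩ := hTOR K (Ix m q) q v k X hXd hXu (fun i => by
    have := hconn (X i)
    rw [hX1 i] at this
    rw [hRu]
    omega)
  -- list `S`
  obtain ⟨r, hr⟩ : ∃ r, r = S.card := ⟨_, rfl⟩
  obtain ⟨s, hsinj, hsim⟩ : ∃ s : Fin r → Ix m q, Function.Injective s ∧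
      Finset.univ.image s = S := by
    subst hr
    refine ⟨fun i => (S.equivFin.symm i : Ix m q), ?_, ?_⟩
    · intro i j hij
      exact S.equivFin.symm.injective (Subtype.ext hij)
    · ext x
      simp only [Finset.mem_image, Finset.mem_univ, true_and]
      constructor
      · rintro ⟨i, rfl⟩
        exact (S.equivFin.symm i).2
      · intro hx
        exact ⟨S.equivFin ⟨x, hx⟩, by simp⟩
  have hrange : Set.range (fun i => v (s i)) = v '' (S : Set (Ix m q)) := by
    rw [← hsim]
    ext x
    simp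
  have hli : LinearIndependent K (fun i => v (s i)) := by
    rw [linearIndependent_iff_card_eq_finrank_span, Fintype.card_fin, hrange, hr, ← hS]
    rfl
  have hrq : r ≤ q := by
    rw [hr, ← hS]
    exact R_le v S
  obtain ⟨p, hp⟩ : ∃ p, q = p + r := ⟨q - r, by omega⟩
  let eq : Fin q ≃ Fin p ⊕ Fin r := (finCongr hp).trans finSumFinEquiv.symm
  obtain ⟨c', v', hc', hdet, hR⟩ := hCN K (Ix m q) q p r eq c v s hc hli
  set v'' : Fin (k + 1) → Fin p → K := fun i => v' (e i) with hv''
  have hRJ : ∀ J : Finset (Fin (k + 1)), R v'' J + r = R v (S ∪ J.image e) := by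
    intro J
    have h2 := hR (J.image e)
    rw [hsim, Finset.union_comm] at h2
    rw [h2, hv'', R_image]
  have hY : ∀ J : Finset (Fin (k + 1)), R v (J.biUnion X) = (S ∩ J.biUnion X).card + R v'' J := by
    intro J
    have h2 := hTor J
    have h3 := hRJ J
    omega
  have hcompl : ∀ J : Finset (Fin (k + 1)), (Jᶜ).biUnion X = (J.biUnion X)ᶜ := by
    intro J
    ext x
    simp only [Finset.mem_biUnion, Finset.mem_compl, not_exists, not_and]
    constructor
    · rintro ⟨i, hi, hx⟩ j hj hxj
      have hij : i ≠ j := fun h => hi (h ▸ hj)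
      exact Finset.disjoint_left.1 (hXd i j hij) hx hxj
    · intro h2
      have h3 : x ∈ Finset.univ.biUnion X := by rw [hXu]; exact Finset.mem_univ x
      obtain ⟨i, -, hi⟩ := Finset.mem_biUnion.1 h3
      exact ⟨i, fun hiJ => h2 i hiJ hi, hi⟩
  have hsplit : ∀ Y : Finset (Ix m q), (S ∩ Y).card + (S ∩ Yᶜ).card = r := by
    intro Y
    have h2 : S ∩ Yᶜ = S \ Y := by
      ext x
      simp
    rw [h2, hr]
    exact Finset.card_inter_add_card_sdiff S Y
  have hkey : ∀ J : Finset (Fin (k + 1)), R v'' J + R v'' Jᶜ = conn ω (J.biUnion X) + p := by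
    intro J
    have h2 := hY J
    have h3 := hY Jᶜ
    rw [hcompl] at h3
    have h4 := hsplit (J.biUnion X)
    have h5 := hconn (J.biUnion X)
    omega
  have hRu'' : R v'' Finset.univ = p := by
    have h2 := hY Finset.univ
    rw [hXu, hRu, Finset.inter_univ] at h2
    omega
  have hRep : Rep (fun a : Fin p → Fin (k + 1) => ω (Sum.elim (e ∘ a) s ∘ eq)) c' v'' := by
    intro a
    show ω (Sum.elim (e ∘ a) s ∘ eq) = _
    rw [hω]
    exact hdet (e ∘ a)
  have hUnif := hUN K (Fin (k + 1)) p _ c' v'' hRep hc' (CR_minor hCR eq s e)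
    (by rw [Fintype.card_fin]; omega) hRu'' (by
      intro Z hZ1 hZ2
      have h2 := hkey Z
      have h3 : Z.card + Zᶜ.card = k + 1 := by
        rw [Finset.card_add_card_compl, Fintype.card_fin]
      have h4 := hX2 Z hZ1 (by omega)
      omega)
  refine ⟨p, r, k + 1, eq, s, e, ?_, ?_, ?_, hUnif⟩
  · refine Function.Injective.sumElim ?_ hsinj ?_
    · intro i j hij
      by_contra hne'
      exact Finset.disjoint_left.1 (hXd i j hne') (he i).1 (hij ▸ (he j).1)
    · intro i j h2
      refine (he i).2 ?_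
      rw [h2, ← hsim]
      exact Finset.mem_image_of_mem s (Finset.mem_univ j)
  · have h2 := hkey J0
    have h3 := R_le v'' J0
    have h4 := R_le v'' J0ᶜ
    omega
  · have h2 := hkey J0
    have h3 := R_le_card v'' J0
    have h4 := R_le_card v'' J0ᶜ
    have h5 : J0.card + J0ᶜ.card = k + 1 := by
      rw [Finset.card_add_card_compl, Fintype.card_fin]
    omega

end Pool.Agent.Helper67.RN.ST
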